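import Pool.Agent.H59.LIN.Targets

/-!
# Row CAI of lin_modules: independence of the signs
-/

set_option autoImplicit false

namespace Pool.Agent.H72.LIN

open Finset Pool.Agent.H59.LIN

variable {α K : Type} [DecidableEq α] [CommRing K]

/-- the alternating sum over one more point -/
theorem dif_insert (F : (α → Bool) → K) (A : Finset α) (x : α) (hx : x ∉ A) (ε : α → Bool) :
    Dif (insert x A) F ε =
      Dif A F (Function.update ε x true) - Dif A F (Function.update ε x false) := by
  unfold Dif
  rw [Finset.sum_powerset_insert hx, sub_eq_add_neg, ← Finset.sum_neg_distrib]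
  congr 1
  · refine Finset.sum_congr rfl fun S hS => ?_
    have hSA := Finset.mem_powerset.1 hS
    have hxS : x ∉ S := fun h => hx (hSA h)
    congr 2
    funext y
    by_cases hy : y = x
    · subst hy
      simp [hx, hxS]
    · simp [hy, Finset.mem_insert]
  · refine Finset.sum_congr rfl fun S hS => ?_
    have hSA := Finset.mem_powerset.1 hS
    have hxS : x ∉ S := fun h => hx (hSA h)
    rw [Finset.card_insert_of_notMem hxS, pow_succ, mul_neg_one, neg_mul]
    congr 3
    funext y
    by_cases hy : y = x
    · subst hy
      simp [hx]
    · simp [hy, Finset.mem_insert]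

theorem dif_update (F : (α → Bool) → K) (A : Finset α) (hF : Dg F A.card) (x : α) (b : Bool)
    (ε : α → Bool) : Dif A F (Function.update ε x b) = Dif A F ε := by
  by_cases hx : x ∈ A
  · unfold Dif
    refine Finset.sum_congr rfl fun S _ => ?_
    congr 2
    funext y
    by_cases hy : y = x
    · subst hy
      simp [hx]
    · simp [hy]
  · have h1 : ∀ ε : α → Bool,
        Dif A F (Function.update ε x true) = Dif A F (Function.update ε x false) := by
      intro ε
      have h2 := hF (insert x A) ε (by rw [Finset.card_insert_of_notMem hx]; omega)
      rw [dif_insert F A x hx ε] at h2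
      exact sub_eq_zero.1 h2
    have h3 : ∀ b b' : Bool,
        Dif A F (Function.update ε x b) = Dif A F (Function.update ε x b') := by
      intro b b'
      cases b <;> cases b'
      · rfl
      · exact (h1 ε).symm
      · exact h1 ε
      · rfl
    rw [h3 b (ε x), Function.update_eq_self]

theorem pf_CAI : Pool.Agent.H59.LIN.T_CAI := by
  intro α K _ _ _ F A hF ε ε'
  have key : ∀ s : Finset α, Dif A F (fun y => if y ∈ s then ε' y else ε y) = Dif A F ε := by
    intro s
    induction s using Finset.induction_on with
    | empty => simp
    | insert x s hx ih =>
      rw [← ih, ← dif_update F A hF x (ε' x) (fun y => if y ∈ s then ε' y else ε y)]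
      congr 1
      funext y
      by_cases hy : y = x
      · subst hy
        simp
      · simp [hy, Finset.mem_insert]
  have h := key Finset.univ
  simp only [Finset.mem_univ, if_true] at h
  exact h.symm

end Pool.Agent.H72.LIN
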